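import Pool.Agent.R619.RA.GoodRel

/-!
# Among complete relation algebras `K_p` is finitely axiomatizable
-/

set_option autoImplicit false

namespace Pool.Agent.Results.MP_86f508_lc.CompleteCase

open FirstOrder Pool.Agent.R619.RA Language

universe u v

section Syntax

variable {α : Type}

/-- The term `0`. -/
def tBot : raLang.Term α := Term.func (l := 0) (L := raLang) Sym.bot ![]
/-- The term `1`. -/
def tTop : raLang.Term α := Term.func (l := 0) (L := raLang) Sym.top ![]
/-- The term `1'`. -/
def tIdr : raLang.Term α := Term.func (l := 0) (L := raLang) Sym.idr ![]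
/-- The term `x˘`. -/
def tConv (s : raLang.Term α) : raLang.Term α := Term.func (l := 1) (L := raLang) Sym.conv ![s]
/-- The term `x + y`. -/
def tSup (s t : raLang.Term α) : raLang.Term α := Term.func (l := 2) (L := raLang) Sym.sup ![s, t]
/-- The term `x ; y`. -/
def tComp (s t : raLang.Term α) : raLang.Term α := Term.func (l := 2) (L := raLang) Sym.comp ![s, t]

variable {A : Type u} [RelAlg A] (v : α → A)

@[simp] theorem r_bot : (tBot : raLang.Term α).realize v = (⊥ : A) := rfl
@[simp] theorem r_top : (tTop : raLang.Term α).realize v = (⊤ : A) := rfl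
@[simp] theorem r_idr : (tIdr : raLang.Term α).realize v = (idr : A) := rfl
@[simp] theorem r_conv (s : raLang.Term α) : (tConv s).realize v = conv (s.realize v) := rfl
@[simp] theorem r_sup (s t : raLang.Term α) :
    (tSup s t).realize v = s.realize v ⊔ t.realize v := rfl
@[simp] theorem r_comp (s t : raLang.Term α) :
    (tComp s t).realize v = comp (s.realize v) (t.realize v) := rfl

/-- `s ≤ t`. -/
def fLe (s t : raLang.Term α) : raLang.Formula α := (tSup s t).equal t

@[simp] theorem r_le (s t : raLang.Term α) :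
    (fLe s t).Realize v ↔ s.realize v ≤ t.realize v := by
  rw [fLe, Formula.realize_equal, r_sup, sup_eq_right]

/-- `t` is an atom. -/
noncomputable def fAtom (t : raLang.Term α) : raLang.Formula α :=
  ∼(t.equal tBot) ⊓ Formula.iAlls Unit
    ((fLe (Term.var (Sum.inr ())) (t.relabel Sum.inl)).imp
      ((Term.var (Sum.inr ())).equal tBot ⊔ (Term.var (Sum.inr ())).equal (t.relabel Sum.inl)))

theorem r_atom (t : raLang.Term α) : (fAtom t).Realize v ↔ IsAtom (t.realize v) := by
  have h1 : IsAtom (t.realize v) ↔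
      t.realize v ≠ ⊥ ∧ ∀ y : A, y ≤ t.realize v → y = ⊥ ∨ y = t.realize v := by
    constructor
    · intro h
      exact ⟨h.1, fun y hy => h.le_iff.1 hy⟩
    · rintro ⟨h1, h2⟩
      exact ⟨h1, fun y hy => (h2 y hy.le).resolve_right hy.ne⟩
  rw [h1, fAtom]
  simp only [Formula.realize_inf, Formula.realize_not, Formula.realize_equal,
    Formula.realize_iAlls, Formula.realize_imp, Formula.realize_sup, r_le, r_bot,
    Term.realize_relabel, Term.realize_var, Sum.elim_inr, Sum.elim_comp_inl]
  constructor
  · rintro ⟨h2, h3⟩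
    exact ⟨h2, fun y => h3 (fun _ => y)⟩
  · rintro ⟨h2, h3⟩
    exact ⟨h2, fun i => h3 (i ())⟩

end Syntax

/-- The single variable of the outer quantifier. -/
def vx : raLang.Term (Empty ⊕ Unit) := Term.var (Sum.inr ())

/-- `0 ≠ 1`. -/
def s1 : raLang.Sentence := ∼(tBot.equal tTop)

/-- Simplicity. -/
noncomputable def s2 : raLang.Sentence :=
  Formula.iAlls Unit ((∼(vx.equal tBot)).imp ((tComp tTop (tComp vx tTop)).equal tTop))

/-- Atomicity. -/
noncomputable def s3 : raLang.Sentence :=
  Formula.iAlls Unit ((∼(vx.equal tBot)).imp (Formula.iExs Unit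
    (fAtom (Term.var (Sum.inr ())) ⊓ fLe (Term.var (Sum.inr ())) (vx.relabel Sum.inl))))

/-- Each atom or its converse is a function. -/
noncomputable def s4 : raLang.Sentence :=
  Formula.iAlls Unit ((fAtom vx).imp
    (fLe (tComp (tConv vx) vx) tIdr ⊔ fLe (tComp vx (tConv vx)) tIdr))

/-- `e ; 1 ; e`. -/
def tMid {α : Type} (e : raLang.Term α) : raLang.Term α := tComp e (tComp tTop e)

/-- The condition on the identity atoms: `e ; 1 ; e = e`, or there are exactly `p` atoms below
`e ; 1 ; e`. -/
noncomputable def s5 (p : ℕ) : raLang.Sentence :=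
  Formula.iAlls Unit ((fAtom vx ⊓ fLe vx tIdr).imp
    ((tMid vx).equal vx ⊔ Formula.iExs (Fin p)
      (Formula.iInf (fun ij : Fin p × Fin p => if ij.1 = ij.2 then ⊤ else
          ∼((Term.var (Sum.inr ij.1)).equal (Term.var (Sum.inr ij.2)))) ⊓
        Formula.iInf (fun i : Fin p => fAtom (Term.var (Sum.inr i)) ⊓
          fLe (Term.var (Sum.inr i)) (tMid (vx.relabel Sum.inl))) ⊓
        Formula.iAlls Unit ((fAtom (Term.var (Sum.inr ())) ⊓
          fLe (Term.var (Sum.inr ())) ((tMid (vx.relabel Sum.inl)).relabel Sum.inl)).imp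
          (Formula.iSup (fun i : Fin p =>
            (Term.var (Sum.inr ())).equal (Term.var (Sum.inl (Sum.inr i)))))))))

/-- The finite set of axioms. -/
noncomputable def axm (p : ℕ) : raLang.Theory := {s1, s2, s3, s4, s5 p}

theorem realize_axm (p : ℕ) (A : Type u) [RelAlg A] : A ⊨ axm p ↔ Good p A := by
  have h1 : A ⊨ s1 ↔ (⊥ : A) ≠ ⊤ := by
    rw [Sentence.Realize, s1, Formula.realize_not, Formula.realize_equal, r_bot, r_top]
  have h2 : A ⊨ s2 ↔ ∀ x : A, x ≠ ⊥ → comp ⊤ (comp x ⊤) = ⊤ := by
    rw [Sentence.Realize, s2]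
    simp only [Formula.realize_iAlls, Formula.realize_imp, Formula.realize_not,
      Formula.realize_equal, r_bot, r_top, r_comp, vx, Term.realize_var, Sum.elim_inr]
    exact ⟨fun h x => h (fun _ => x), fun h i => h (i ())⟩
  have h3 : A ⊨ s3 ↔ Atomic A := by
    rw [Sentence.Realize, s3]
    simp only [Formula.realize_iAlls, Formula.realize_imp, Formula.realize_not,
      Formula.realize_equal, r_bot, vx, Term.realize_var, Sum.elim_inr, Formula.realize_iExs,
      Formula.realize_inf, r_atom, r_le, Term.relabel, Sum.elim_inl]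
    constructor
    · intro h x hx
      obtain ⟨i, hi⟩ := h (fun _ => x) hx
      exact ⟨i (), hi⟩
    · intro h i hi
      obtain ⟨a, ha⟩ := h (i ()) hi
      exact ⟨fun _ => a, ha⟩
  have h4 : A ⊨ s4 ↔ ∀ a : A, IsAtom a → comp (conv a) a ≤ idr ∨ comp a (conv a) ≤ idr := by
    rw [Sentence.Realize, s4]
    simp only [Formula.realize_iAlls, Formula.realize_imp, Formula.realize_sup, r_atom, r_le,
      r_comp, r_conv, r_idr, vx, Term.realize_var, Sum.elim_inr]
    exact ⟨fun h x => h (fun _ => x), fun h i => h (i ())⟩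
  have h5 : A ⊨ s5 p ↔ ∀ e : A, IsAtom e → e ≤ idr → First e ∨ ∃ f : Fin p → A,
      Function.Injective f ∧ (∀ i, f i ∈ GSet e) ∧ ∀ y ∈ GSet e, ∃ i, y = f i := by
    rw [Sentence.Realize, s5]
    simp only [Formula.realize_iAlls, Formula.realize_imp, Formula.realize_sup,
      Formula.realize_inf, r_atom, r_le, r_comp, r_idr, r_top, vx, Term.realize_var, Sum.elim_inr,
      Formula.realize_iExs, Formula.realize_iInf, Formula.realize_iSup, Formula.realize_equal,
      Term.relabel, Sum.elim_inl, tMid, Term.realize_relabel]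
    have hite : ∀ (w : (Empty ⊕ Unit) ⊕ Fin p → A) (b : Fin p × Fin p),
        ((if b.1 = b.2 then ⊤ else
          ∼((Term.var (Sum.inr b.1) : raLang.Term ((Empty ⊕ Unit) ⊕ Fin p)).equal
            (Term.var (Sum.inr b.2))) : raLang.Formula ((Empty ⊕ Unit) ⊕ Fin p)).Realize w) ↔
        (w (Sum.inr b.1) = w (Sum.inr b.2) → b.1 = b.2) := by
      intro w b
      split_ifs with h
      · simp [h]
      · rw [Formula.realize_not, Formula.realize_equal, Term.realize_var, Term.realize_var]
        exact ⟨fun h1 h2 => (h1 h2).elim, fun h1 h2 => h (h1 h2)⟩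
    constructor
    · intro h e he he1
      rcases h (fun _ => e) ⟨he, he1⟩ with h0 | ⟨f, ⟨hf1, hf2⟩, hf3⟩
      · exact Or.inl h0
      · right
        refine ⟨f, ?_, fun i => hf2 i, fun y hy => hf3 (fun _ => y) hy⟩
        intro i j hij
        exact (hite _ (i, j)).1 (hf1 (i, j)) hij
    · rintro h i ⟨he, he1⟩
      rcases h (i ()) he he1 with h0 | ⟨f, hf1, hf2, hf3⟩
      · exact Or.inl h0
      · right
        refine ⟨f, ⟨fun b => (hite _ b).2 (fun hb => hf1 hb), fun b => hf2 b⟩, ?_⟩
        intro j hj
        exact hf3 (j ()) hj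
  constructor
  · intro h
    have hm : ∀ φ ∈ axm p, A ⊨ φ := fun φ hφ => h.realize_of_mem φ hφ
    exact ⟨h1.1 (hm _ (by simp [axm])), h2.1 (hm _ (by simp [axm])), h3.1 (hm _ (by simp [axm])),
      h4.1 (hm _ (by simp [axm])), h5.1 (hm _ (by simp [axm]))⟩
  · intro h
    refine ⟨?_⟩
    intro φ hφ
    simp only [axm, Set.mem_insert_iff, Set.mem_singleton_iff] at hφ
    rcases hφ with rfl | rfl | rfl | rfl | rfl
    · exact h1.2 h.nontriv
    · exact h2.2 h.simple
    · exact h3.2 h.atomic
    · exact h4.2 h.func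
    · exact h5.2 h.idat

/-- An isomorphism of relation algebras as an isomorphism of first-order structures. -/
def toLEquiv {A : Type u} {B : Type v} [RelAlg A] [RelAlg B] (f : RelAlgIso A B) :
    A ≃[raLang] B where
  toEquiv := f.toEquiv
  map_fun' := by
    intro n F x
    cases F
    · exact map_bot f.toRelIso
    · exact map_top f.toRelIso
    · exact f.map_idr
    · exact map_compl f.toRelIso (x 0)
    · exact f.map_conv (x 0)
    · exact map_sup f.toRelIso (x 0) (x 1)
    · exact map_inf f.toRelIso (x 0) (x 1)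
    · exact f.map_comp (x 0) (x 1)
  map_rel' := by
    intro n r x
    exact (r : Empty).elim

/-- For every prime `p` there is a finite set of first-order sentences such that a complete
relation algebra satisfies it if and only if it lies in `K_p`. -/
theorem result (p : ℕ) (hp : p.Prime) :
    ∃ T : raLang.Theory, T.Finite ∧ ∀ (A : Type u) [RelAlg A],
      (∀ S : Set A, ∃ a, IsLUB S a) → (A ⊨ T ↔ InK p A) := by
  refine ⟨axm p, ?_, ?_⟩
  · rw [axm]
    exact Set.toFinite _
  · intro A _ hcomplete
    constructor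
    · intro h
      exact main_repr hp ((realize_axm p A).1 h) hcomplete
    · rintro ⟨X, hX, act, ⟨f⟩⟩
      have h1 : Good p (CRel (Multiplicative (ZMod p)) X) :=
        good_rel hp (by rw [Nat.card_congr Multiplicative.toAdd, Nat.card_zmod])
      have h2 : CRel (Multiplicative (ZMod p)) X ⊨ axm p := (realize_axm p _).2 h1
      have e := (toLEquiv f).symm
      exact Language.StrongHomClass.theory_model e

end Pool.Agent.Results.MP_86f508_lc.CompleteCase
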