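import Pool.Agent.R619.RA.Defs

/-!
# The relation algebras of `Z_p`-sets are not an elementary class
-/

set_option autoImplicit false

namespace Pool.Agent.Results.MP_86f508_lc.NotElementary

open FirstOrder Pool.Agent.R619.RA Cardinal

universe u

/-- The Boolean subalgebra underlying a substructure of a relation algebra. -/
def toBA {A : Type u} [RelAlg A] (S : raLang.Substructure A) : BooleanSubalgebra A where
  carrier := {x | x ∈ S}
  supClosed' := by
    intro x hx y hy
    have := S.fun_mem (n := 2) Sym.sup ![x, y] (by
      intro i; fin_cases i; exacts [hx, hy])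
    exact this
  infClosed' := by
    intro x hx y hy
    have := S.fun_mem (n := 2) Sym.inf ![x, y] (by
      intro i; fin_cases i; exacts [hx, hy])
    exact this
  compl_mem' := by
    intro x hx
    have := S.fun_mem (n := 1) Sym.compl ![x] (by
      intro i; fin_cases i; exact hx)
    exact this
  bot_mem' := by
    have := S.fun_mem (n := 0) Sym.bot ![] (by intro i; exact i.elim0)
    exact this

instance subRelAlg {A : Type u} [RelAlg A] (S : raLang.Substructure A) : RelAlg (toBA S) where
  comp x y := ⟨comp x.1 y.1, by
    have := S.fun_mem (n := 2) Sym.comp ![x.1, y.1] (by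
      intro i; fin_cases i; exacts [x.2, y.2])
    exact this⟩
  conv x := ⟨conv x.1, by
    have := S.fun_mem (n := 1) Sym.conv ![x.1] (by
      intro i; fin_cases i; exact x.2)
    exact this⟩
  idr := ⟨idr, by
    have := S.fun_mem (n := 0) Sym.idr ![] (by intro i; exact i.elim0)
    exact this⟩
  comp_assoc x y z := Subtype.ext (RelAlg.comp_assoc x.1 y.1 z.1)
  sup_comp x y z := Subtype.ext (RelAlg.sup_comp x.1 y.1 z.1)
  comp_idr x := Subtype.ext (RelAlg.comp_idr x.1)
  conv_conv x := Subtype.ext (RelAlg.conv_conv x.1)
  conv_sup x y := Subtype.ext (RelAlg.conv_sup x.1 y.1)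
  conv_comp x y := Subtype.ext (RelAlg.conv_comp x.1 y.1)
  tarski x y := RelAlg.tarski x.1 y.1

/-- The identity map from a substructure to the relation algebra it carries. -/
def subEquiv {A : Type u} [RelAlg A] (S : raLang.Substructure A) : S ≃[raLang] (toBA S) where
  toFun x := ⟨x.1, x.2⟩
  invFun x := ⟨x.1, x.2⟩
  left_inv _ := rfl
  right_inv _ := rfl
  map_fun' := by
    intro n f x
    cases f <;> rfl
  map_rel' := by
    intro n r x
    exact (r : Empty).elim

section Count

variable (G : Type) [Group G] [Finite G] (X : Type u) [MulAction G X]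

theorem quot_infinite [Infinite X] : Infinite (MulAction.orbitRel.Quotient G X) := by
  by_contra h
  rw [not_infinite_iff_finite] at h
  have hs : Function.Surjective
      (fun q : G × MulAction.orbitRel.Quotient G X => q.1 • (Quotient.out q.2 : X)) := by
    intro x
    have h1 : (MulAction.orbitRel G X) (Quotient.out (Quotient.mk _ x : MulAction.orbitRel.Quotient G X)) x :=
      Quotient.mk_out x
    rw [MulAction.orbitRel_apply] at h1
    obtain ⟨g, hg⟩ := h1
    refine ⟨(g⁻¹, Quotient.mk _ x), ?_⟩
    have hg' : g • x = Quotient.out (Quotient.mk _ x : MulAction.orbitRel.Quotient G X) := hg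
    show g⁻¹ • Quotient.out (Quotient.mk _ x : MulAction.orbitRel.Quotient G X) = x
    rw [← hg', inv_smul_smul]
  have := Finite.of_surjective _ hs
  exact not_finite X

theorem rel_big [Infinite X] : ℵ₀ < #(CRel G X) := by
  have := quot_infinite G X
  have hinj : Function.Injective (fun T : Set (MulAction.orbitRel.Quotient G X) =>
      (⟨{q : X × X | (Quotient.mk _ q.1 : MulAction.orbitRel.Quotient G X) ∈ T}, by
        intro g x y h
        have e : (Quotient.mk _ (g • x) : MulAction.orbitRel.Quotient G X) = Quotient.mk _ x :=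
          Quotient.sound (by
            show MulAction.orbitRel G X _ _
            rw [MulAction.orbitRel_apply]
            exact ⟨g, rfl⟩)
        show (Quotient.mk _ (g • x) : MulAction.orbitRel.Quotient G X) ∈ T
        rw [e]
        exact h⟩ : CRel G X)) := by
    intro T T' h
    ext q
    induction q using Quotient.inductionOn with
    | h x =>
      have h1 := congrArg (fun R : CRel G X => (x, x) ∈ R.1) h
      exact iff_of_eq h1
  have h1 := mk_le_of_injective hinj
  refine lt_of_lt_of_le ?_ h1
  rw [mk_set]
  exact lt_of_le_of_lt (aleph0_le_mk _) (cantor _)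

end Count

/-- A numbering of the operation symbols. -/
def code : (Σ l, Sym l) → ℕ
  | ⟨_, .bot⟩ => 0
  | ⟨_, .top⟩ => 1
  | ⟨_, .idr⟩ => 2
  | ⟨_, .compl⟩ => 3
  | ⟨_, .conv⟩ => 4
  | ⟨_, .sup⟩ => 5
  | ⟨_, .inf⟩ => 6
  | ⟨_, .comp⟩ => 7

theorem code_injective : Function.Injective code := by
  rintro ⟨l, f⟩ ⟨l', f'⟩ h
  cases f <;> cases f' <;> first | rfl | (simp [code] at h)

theorem symbols_countable : Countable raLang.Symbols := by
  have h1 : Countable (Σ l, raLang.Functions l) := code_injective.countable
  have h2 : Countable (Σ l, raLang.Relations l) := by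
    have : IsEmpty (Σ l, raLang.Relations l) := ⟨fun x => (x.2 : Empty).elim⟩
    infer_instance
  exact inferInstanceAs (Countable ((Σ l, raLang.Functions l) ⊕ (Σ l, raLang.Relations l)))

/-- The trivial action. -/
@[reducible] def trivAct (G : Type) [Group G] (X : Type u) : MulAction G X where
  smul _ x := x
  one_smul _ := rfl
  mul_smul _ _ _ := rfl

/-- For no prime `p` is `K_p` axiomatizable by first-order sentences relative to the relation
algebras. -/
theorem result (p : ℕ) (hp : p.Prime) :
    ¬ ∃ T : raLang.Theory, ∀ (A : Type u) [RelAlg A], A ⊨ T ↔ InK p A := by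
  rintro ⟨T, hT⟩
  haveI : NeZero p := ⟨hp.ne_zero⟩
  let G := Multiplicative (ZMod p)
  let X := ULift.{u} ℕ
  letI act : MulAction G X := trivAct G X
  have hA : InK p (CRel G X) := ⟨X, inferInstance, act, ⟨{ OrderIso.refl _ with
    map_comp := fun _ _ => rfl
    map_conv := fun _ => rfl
    map_idr := rfl }⟩⟩
  have hM : (CRel G X) ⊨ T := (hT _).2 hA
  have big : ℵ₀ < #(CRel G X) := rel_big G X
  obtain ⟨S, -, hS⟩ := Language.exists_elementarySubstructure_card_eq raLang
    (M := CRel G X) ∅ (ℵ₀ : Cardinal.{u}) le_rfl (by simp) (by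
      have hc : raLang.card ≤ ℵ₀ := by
        have : Countable raLang.Symbols := symbols_countable
        exact mk_le_aleph0
      simpa using hc) (by
      simpa using big.le)
  have hS' : #S = ℵ₀ := by simpa using hS
  have h1 : S ⊨ T := by
    have := S.theory_model_iff T
    exact this.2 hM
  have h2 : (toBA S.toSubstructure) ⊨ T := by
    have e := subEquiv S.toSubstructure
    exact Language.StrongHomClass.theory_model e
  obtain ⟨Y, _, act2, ⟨f⟩⟩ := (hT _).1 h2
  have e1 : #(CRel G Y) = ℵ₀ := by
    rw [← hS']
    exact mk_congr (f.toEquiv.symm.trans (subEquiv S.toSubstructure).toEquiv.symm)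
  rcases finite_or_infinite Y with hY | hY
  · have : Finite (CRel G Y) := inferInstanceAs (Finite {R : Set (Y × Y) // R ∈ CRel G Y})
    have h3 := lt_aleph0_of_finite (CRel G Y)
    rw [e1] at h3
    exact lt_irrefl _ h3
  · have h3 := rel_big G Y
    rw [e1] at h3
    exact lt_irrefl _ h3

end Pool.Agent.Results.MP_86f508_lc.NotElementary
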